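import Pool.Agent.helper43.NS.Defs

/-!
Averages over a period, centred coefficients, truncated indicators.
-/

open Finset

namespace Pool.Agent.helper73.NS

open Pool.Agent.helper43.NO Pool.Agent.helper43.NS

lemma dvd_iff_sub (P : Finset ℕ) (hP : ∀ p ∈ P, p.Prime) (m : ℕ) (T : Finset ℕ) (hT : T ⊆ P) :
    (∏ p ∈ T, p) ∣ m ↔ T ⊆ P.filter (fun p => p ∣ m) := by
  constructor
  · intro h p hp
    rw [mem_filter]
    exact ⟨hT hp, (Finset.dvd_prod_of_mem (fun p => p) hp).trans h⟩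
  · intro h
    refine Finset.prod_primes_dvd m (fun p hp => (hP p (hT hp)).prime) ?_
    intro p hp
    exact (mem_filter.mp (h hp)).2

lemma Gf_eq (P : Finset ℕ) (hP : ∀ p ∈ P, p.Prime) (c : Finset ℕ → ℝ) (m : ℕ) :
    Gf P c m = ∑ T ∈ (P.filter (fun p => p ∣ m)).powerset, c T := by
  unfold Gf
  rw [← Finset.sum_filter]
  apply Finset.sum_congr _ (fun _ _ => rfl)
  ext T
  simp only [mem_filter, mem_powerset]
  constructor
  · rintro ⟨h1, h2⟩
    exact (dvd_iff_sub P hP m T h1).mp h2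
  · intro h
    have h1 : T ⊆ P := h.trans (filter_subset _ _)
    exact ⟨h1, (dvd_iff_sub P hP m T h1).mpr h⟩

lemma card_mult (N d : ℕ) (hd : d ∣ N) (hN : 0 < N) :
    (((Icc 1 N).filter (fun m => d ∣ m)).card : ℝ) = (N : ℝ) / (d : ℝ) := by
  have h1 : Icc 1 N = Ioc 0 N := by
    ext x
    simp only [mem_Icc, mem_Ioc]
    omega
  rw [h1, Nat.Ioc_filter_dvd_card_eq_div]
  have hd0 : (d : ℝ) ≠ 0 := by
    have : 0 < d := Nat.pos_of_dvd_of_pos hd hN
    exact_mod_cast this.ne'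
  exact Nat.cast_div hd hd0

/-- every `∏ T`, `T ⊆ P`, divides the period `∏ P` -/
lemma avg_Gf (P : Finset ℕ) (hP : ∀ p ∈ P, p.Prime) (c : Finset ℕ → ℝ) :
    ∑ m ∈ Icc 1 (∏ p ∈ P, p), Gf P c m = ((∏ p ∈ P, p : ℕ) : ℝ) * Mn P c := by
  unfold Gf Mn
  rw [Finset.sum_comm, Finset.mul_sum]
  apply Finset.sum_congr rfl
  intro T hT
  rw [mem_powerset] at hT
  have hN : 0 < ∏ p ∈ P, p := Finset.prod_pos (fun p hp => (hP p hp).pos)
  have hd : (∏ p ∈ T, p) ∣ ∏ p ∈ P, p := Finset.prod_dvd_prod_of_subset T P _ hT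
  rw [← Finset.sum_filter, Finset.sum_const, nsmul_eq_mul, card_mult _ _ hd hN]
  ring

lemma Gf_pow (P : Finset ℕ) (hP : ∀ p ∈ P, p.Prime) (u : ℝ) (m : ℕ) :
    Gf P (fun T => (u - 1) ^ T.card) m = u ^ (om P m) := by
  rw [Gf_eq P hP]
  have h := Finset.sum_pow_mul_eq_add_pow (u - 1) 1 (P.filter (fun p => p ∣ m))
  simp only [one_pow, mul_one, sub_add_cancel] at h
  exact h

lemma Mn_pow (P : Finset ℕ) (u : ℝ) :
    Mn P (fun T => (u - 1) ^ T.card) = pr P (u - 1) := by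
  unfold Mn pr
  rw [Finset.prod_one_add]
  apply Finset.sum_congr rfl
  intro T _
  rw [Finset.prod_div_distrib, Finset.prod_const, Nat.cast_prod]

/-- `u^ω(m) = ∑_{T ⊆ P, ∏ T ∣ m} (u-1)^|T|` and `avg_Gf` -/
lemma avg_pow (P : Finset ℕ) (hP : ∀ p ∈ P, p.Prime) (u : ℝ) :
    ∑ m ∈ Icc 1 (∏ p ∈ P, p), u ^ (om P m) = ((∏ p ∈ P, p : ℕ) : ℝ) * pr P (u - 1) := by
  rw [← Mn_pow, ← avg_Gf P hP]
  apply Finset.sum_congr rfl
  intro m _
  rw [Gf_pow P hP]

/-- `Gf P (psi P c) m = Mn P c - Gf P c m`, `Mn P (psi P c) = 0` -/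
lemma psi_Gf (P : Finset ℕ) (c : Finset ℕ → ℝ) (m : ℕ) :
    Gf P (psi P c) m = Mn P c - Gf P c m := by
  have h1 : ∀ T ∈ P.powerset, (if (∏ p ∈ T, p) ∣ m then psi P c T else 0) =
      (if T = ∅ then Mn P c else 0) - (if (∏ p ∈ T, p) ∣ m then c T else 0) := by
    intro T _
    unfold psi
    by_cases hT : T = ∅
    · subst hT
      simp
    · by_cases hd : (∏ p ∈ T, p) ∣ m
      · simp [hT, hd]
      · simp [hT, hd]
  unfold Gf
  rw [Finset.sum_congr rfl h1, Finset.sum_sub_distrib, Finset.sum_ite_eq']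
  simp

lemma psi_Mn (P : Finset ℕ) (c : Finset ℕ → ℝ) : Mn P (psi P c) = 0 := by
  have h1 : ∀ T ∈ P.powerset, psi P c T / ((∏ p ∈ T, p : ℕ) : ℝ) =
      (if T = ∅ then Mn P c else 0) - c T / ((∏ p ∈ T, p : ℕ) : ℝ) := by
    intro T _
    unfold psi
    by_cases hT : T = ∅
    · subst hT
      simp
    · simp [hT, neg_div]
  have h2 : Mn P (psi P c) = ∑ T ∈ P.powerset, psi P c T / ((∏ p ∈ T, p : ℕ) : ℝ) := rfl
  rw [h2, Finset.sum_congr rfl h1, Finset.sum_sub_distrib, Finset.sum_ite_eq']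
  have h3 : ∑ T ∈ P.powerset, c T / ((∏ p ∈ T, p : ℕ) : ℝ) = Mn P c := rfl
  rw [h3]
  simp

lemma ca_coef (a D : ℕ) (T : Finset ℕ) : |ca a D T| ≤ 2 ^ T.card := by
  unfold ca
  split_ifs
  · rw [abs_mul, abs_pow, abs_neg, abs_one, one_pow, one_mul, abs_of_nonneg (Nat.cast_nonneg _)]
    have h := Nat.choose_le_two_pow T.card a
    calc ((T.card.choose a : ℕ) : ℝ) ≤ ((2 ^ T.card : ℕ) : ℝ) := by exact_mod_cast h
      _ = 2 ^ T.card := by push_cast; ring
  · rw [abs_zero]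
    positivity

/-- all coefficients of sets with less than `a` elements vanish -/
lemma ca_low (P : Finset ℕ) (hP : ∀ p ∈ P, p.Prime) (a D m : ℕ) (h : om P m < a) :
    Gf P (ca a D) m = 0 := by
  rw [Gf_eq P hP]
  apply Finset.sum_eq_zero
  intro T hT
  rw [mem_powerset] at hT
  have h1 : T.card < a := lt_of_le_of_lt (Finset.card_le_card hT) h
  unfold ca
  rw [Nat.choose_eq_zero_of_lt h1]
  simp

lemma alt_sum (n a : ℕ) :
    ∑ j ∈ range (n + 1), (n.choose j : ℝ) * ((-1) ^ (j - a) * (j.choose a : ℝ)) =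
      if n = a then 1 else 0 := by
  rcases lt_or_ge n a with h | h
  · rw [if_neg (by omega)]
    apply Finset.sum_eq_zero
    intro j hj
    rw [mem_range] at hj
    rw [Nat.choose_eq_zero_of_lt (show j < a by omega)]
    simp
  · obtain ⟨k, rfl⟩ := Nat.exists_eq_add_of_le h
    rw [show a + k + 1 = a + (k + 1) by ring, Finset.sum_range_add]
    have h0 : ∑ j ∈ range a, ((a + k).choose j : ℝ) * ((-1) ^ (j - a) * (j.choose a : ℝ)) = 0 := by
      apply Finset.sum_eq_zero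
      intro j hj
      rw [mem_range] at hj
      rw [Nat.choose_eq_zero_of_lt hj]
      simp
    rw [h0, zero_add]
    have h1 : ∀ i ∈ range (k + 1), ((a + k).choose (a + i) : ℝ) *
        ((-1) ^ (a + i - a) * ((a + i).choose a : ℝ)) =
        ((a + k).choose a : ℝ) * ((-1) ^ i * (k.choose i : ℝ)) := by
      intro i hi
      rw [mem_range] at hi
      have h2 : (a + k).choose (a + i) * (a + i).choose a = (a + k).choose a * k.choose i := by
        have := Nat.choose_mul (n := a + k) (k := a + i) (s := a) (by omega)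
        rw [this]
        congr 2 <;> omega
      rw [show a + i - a = i by omega]
      have h3 : ((a + k).choose (a + i) : ℝ) * ((a + i).choose a : ℝ) =
          ((a + k).choose a : ℝ) * (k.choose i : ℝ) := by exact_mod_cast h2
      calc ((a + k).choose (a + i) : ℝ) * ((-1) ^ i * ((a + i).choose a : ℝ))
          = (-1) ^ i * (((a + k).choose (a + i) : ℝ) * ((a + i).choose a : ℝ)) := by ring
        _ = _ := by rw [h3]; ring
    rw [Finset.sum_congr rfl h1, ← Finset.mul_sum]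
    have h4 : ∑ i ∈ range (k + 1), ((-1 : ℝ)) ^ i * (k.choose i : ℝ) = if k = 0 then 1 else 0 := by
      have := Int.alternating_sum_range_choose (n := k)
      have h5 : ((∑ i ∈ range (k + 1), ((-1 : ℤ)) ^ i * (k.choose i : ℤ) : ℤ) : ℝ) =
          ((if k = 0 then 1 else 0 : ℤ) : ℝ) := by rw [this]
      push_cast at h5
      rw [h5]
    rw [h4]
    by_cases hk : k = 0
    · subst hk
      simp
    · rw [if_neg hk, if_neg (by omega)]
      simp

/-- `∑_{T ⊆ A} (-1)^(|T|-a) C(|T|,a) = [|A| = a]` -/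
lemma ca_mid (P : Finset ℕ) (hP : ∀ p ∈ P, p.Prime) (a D m : ℕ) (h : om P m ≤ D) :
    Gf P (ca a D) m = if om P m = a then 1 else 0 := by
  rw [Gf_eq P hP]
  have h1 : ∀ T ∈ (P.filter (fun p => p ∣ m)).powerset, ca a D T =
      (fun j : ℕ => (-1 : ℝ) ^ (j - a) * (j.choose a : ℝ)) T.card := by
    intro T hT
    rw [mem_powerset] at hT
    have h2 : T.card ≤ D := (Finset.card_le_card hT).trans h
    unfold ca
    rw [if_pos h2]
  rw [Finset.sum_congr rfl h1]
  refine (Finset.sum_powerset_apply_card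
    (fun j : ℕ => (-1 : ℝ) ^ (j - a) * (j.choose a : ℝ))).trans ?_
  have h3 := alt_sum (om P m) a
  rw [← h3]
  unfold om
  apply Finset.sum_congr rfl
  intro j _
  rw [nsmul_eq_mul]

/-- `∑_{T ⊆ A} 2^|T| = 3^|A|` -/
lemma ca_abs (P : Finset ℕ) (hP : ∀ p ∈ P, p.Prime) (a D m : ℕ) :
    |Gf P (ca a D) m| ≤ 3 ^ (om P m) := by
  rw [Gf_eq P hP]
  refine (Finset.abs_sum_le_sum_abs _ _).trans ?_
  refine (Finset.sum_le_sum (fun T _ => ca_coef a D T)).trans ?_
  have h := Finset.sum_pow_mul_eq_add_pow (2 : ℝ) 1 (P.filter (fun p => p ∣ m))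
  simp only [one_pow, mul_one] at h
  rw [h]
  norm_num [om]

end Pool.Agent.helper73.NS
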